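import Pool.Agent.L5helper31.TG.Defs2

/-!
# The fans of `P^n` and of `P^1 × P^(n-1)` are different
-/

set_option autoImplicit false

open MeasureTheory Finset

namespace Pool.Agent.L5helper31.TG


/-- elements of `pnL M` in coordinates -/
lemma u2_mem_pnL {n : ℕ} (M : Fin n → (Fin n → ℤ)) {v : Fin n → ℤ} (hv : v ∈ pnL M) :
    ∃ c : Fin n → ℤ, Matrix.vecMul c (Matrix.of M) = v ∧
      ((∀ i, c i = -1) ∨ ∃ a, ∀ i, c i = if i = a then 1 else 0) := by
  have hvm : ∀ c : Fin n → ℤ, Matrix.vecMul c (Matrix.of M) = ∑ i, c i • M i := by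
    intro c
    rw [Matrix.vecMul_eq_sum]
    rfl
  unfold pnL at hv
  rcases Finset.mem_insert.1 hv with h | h
  · refine ⟨fun _ => -1, ?_, Or.inl fun _ => rfl⟩
    rw [hvm, h]
    simp
  · obtain ⟨a, -, ha⟩ := Finset.mem_image.1 h
    refine ⟨fun i => if i = a then 1 else 0, ?_, Or.inr ⟨a, fun _ => rfl⟩⟩
    rw [hvm, ← ha]
    simp

theorem prod_ne_pn {n : ℕ} (hn : 2 ≤ n) (M M' : Fin n → (Fin n → ℤ))
    (hd : |(Matrix.of M).det| = 1) (hd' : |(Matrix.of M').det| = 1) (j : Fin n) :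
    prodL M j ≠ pnL M' := by
  have _ := hd
  intro he
  have h1 : M j ∈ pnL M' := by
    rw [← he]
    unfold prodL
    exact Finset.mem_insert_of_mem (Finset.mem_insert_of_mem
      (Finset.mem_image_of_mem _ (Finset.mem_univ j)))
  have h2 : -M j ∈ pnL M' := by
    rw [← he]
    unfold prodL
    exact Finset.mem_insert_self _ _
  obtain ⟨c, hc, hc'⟩ := u2_mem_pnL M' h1
  obtain ⟨c', hd1, hd2⟩ := u2_mem_pnL M' h2
  have hdet : (Matrix.of M').det ≠ 0 := by
    intro h0
    rw [h0] at hd'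
    simp at hd'
  have hz : c + c' = 0 := by
    refine Matrix.eq_zero_of_vecMul_eq_zero hdet ?_
    rw [Matrix.add_vecMul, hc, hd1]
    simp
  have hz' : ∀ i, c i + c' i = 0 := fun i => congrFun hz i
  rcases hc' with h | ⟨a, h⟩ <;> rcases hd2 with h' | ⟨b, h'⟩
  · have := hz' j
    rw [h, h'] at this
    omega
  · obtain ⟨i, hi⟩ : ∃ i : Fin n, i ≠ b := by
      have : Nontrivial (Fin n) := Fin.nontrivial_iff_two_le.2 hn
      exact exists_ne b
    have := hz' i
    rw [h, h', if_neg hi] at this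
    omega
  · obtain ⟨i, hi⟩ : ∃ i : Fin n, i ≠ a := by
      have : Nontrivial (Fin n) := Fin.nontrivial_iff_two_le.2 hn
      exact exists_ne a
    have := hz' i
    rw [h, h', if_neg hi] at this
    omega
  · have := hz' a
    rw [h, h', if_pos rfl] at this
    split_ifs at this <;> omega

end Pool.Agent.L5helper31.TG
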